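import Mathlib
import Pool.Agent.H.MP_31565c_an.A

set_option autoImplicit false

namespace Pool.Agent.Results.MP_31565c_an.Q1

open Polynomial

theorem result (d : ℕ) (hd : 2 ≤ d) (l : ℕ → ℝ) (T : ℝ[X] →ₗ[ℝ] ℝ[X])
    (hT : ∀ k, k ≤ d → k ≠ d - 1 → T (X ^ k) = C (l k) * X ^ k) (hl : l d ≠ 0) :
    (∀ p : ℝ[X], p.natDegree ≤ d → p.coeff (d - 1) = 0 → p.Splits → (T p).Splits) ↔
      ((T ((X - 1) ^ (d - 1) * (X + C ((d : ℝ) - 1)))).Splits ∧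
        (d - 1 ≤ ((T ((X - 1) ^ (d - 1) * (X + C ((d : ℝ) - 1)))).roots.filter
            fun x => 0 ≤ x).card ∨
          d - 1 ≤ ((T ((X - 1) ^ (d - 1) * (X + C ((d : ℝ) - 1)))).roots.filter
            fun x => x ≤ 0).card)) :=
  Pool.Agent.H.MP_31565c_an.main d hd l T hT hl _ rfl

end Pool.Agent.Results.MP_31565c_an.Q1
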